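import Pool.Agent.TH143.DE.Gen

/-!
Coefficients which are rational functions along an orbit.
-/

set_option autoImplicit false

namespace Pool.Agent.TH143.DE

open MvPolynomial Filter Pool.Agent.TH143 Pool.Agent.TH143.GT Pool.Agent.W602.GT
  Pool.Agent.W603.BP Pool.Agent.W603.GR Pool.Agent.W603.BPR

theorem ev_ne {t : ℕ → ℂ} (ht : Function.Injective t) {R : Polynomial ℂ} (hR : R ≠ 0) :
    ∀ᶠ m in atTop, R.eval (t m) ≠ 0 := by
  have h1 : {z | R.eval z = 0}.Finite := by
    have := R.rootSet_finite ℂ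
    refine this.subset fun z hz => ?_
    rw [Polynomial.mem_rootSet]
    refine ⟨hR, ?_⟩
    rw [Polynomial.aeval_def, Polynomial.eval₂_eq_eval_map, Algebra.algebraMap_self,
      Polynomial.map_id]
    exact hz
  have h2 := h1.preimage (ht.injOn (s := t ⁻¹' {z | R.eval z = 0}))
  have h3 := h2.compl_mem_cofinite
  rw [Nat.cofinite_eq_atTop] at h3
  exact h3

/-- the sequences which are given, from some index on, by rational functions of `t m` -/
def ratB (t : ℕ → ℂ) (ht : Function.Injective t) : Subalgebra ℂ (ℕ → ℂ) where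
  carrier := {f | ∃ P R : Polynomial ℂ, R ≠ 0 ∧ ∀ᶠ m in atTop, f m = P.eval (t m) / R.eval (t m)}
  mul_mem' := by
    rintro f g ⟨P, R, hR, hf⟩ ⟨P', R', hR', hg⟩
    refine ⟨P * P', R * R', mul_ne_zero hR hR', ?_⟩
    filter_upwards [hf, hg] with m h1 h2
    rw [Pi.mul_apply, h1, h2, Polynomial.eval_mul, Polynomial.eval_mul, div_mul_div_comm]
  add_mem' := by
    rintro f g ⟨P, R, hR, hf⟩ ⟨P', R', hR', hg⟩
    refine ⟨P * R' + R * P', R * R', mul_ne_zero hR hR', ?_⟩
    filter_upwards [hf, hg, ev_ne ht hR, ev_ne ht hR'] with m h1 h2 h3 h4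
    rw [Pi.add_apply, h1, h2, div_add_div _ _ h3 h4]
    simp only [Polynomial.eval_add, Polynomial.eval_mul]
  algebraMap_mem' := fun c => ⟨Polynomial.C c, 1, one_ne_zero, Eventually.of_forall fun m => by
    rw [Polynomial.eval_C, Polynomial.eval_one, div_one]
    rfl⟩

theorem poly_mem {t : ℕ → ℂ} (ht : Function.Injective t) (P : Polynomial ℂ) :
    (fun m => P.eval (t m)) ∈ ratB t ht :=
  ⟨P, 1, one_ne_zero, Eventually.of_forall fun m => by rw [Polynomial.eval_one, div_one]⟩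

theorem ratB_field {t : ℕ → ℂ} (ht : Function.Injective t) (ρ : Polynomial ℂ)
    (hρ : ∀ m, t (m + 1) = ρ.eval (t m)) : CoefField (ratB t ht) := by
  refine ⟨⟨?_, ?_⟩, ?_⟩
  · rintro f ⟨P, R, hR, hf⟩
    refine ⟨P.comp ρ, R.comp ρ, ?_, ?_⟩
    · obtain ⟨m, hm⟩ := (eventually_shift (ev_ne ht hR) 1).exists
      intro h0
      apply hm
      rw [hρ, ← Polynomial.eval_comp, h0, Polynomial.eval_zero]
    · filter_upwards [eventually_shift hf 1] with m hm
      rw [hm, Polynomial.eval_comp, Polynomial.eval_comp, hρ]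
  · rintro f ⟨P, R, hR, hf⟩
    by_cases hP : P = 0
    · left
      filter_upwards [hf] with m hm
      rw [hm, hP, Polynomial.eval_zero, zero_div]
    · right
      filter_upwards [hf, ev_ne ht hR, ev_ne ht hP] with m hm h1 h2
      rw [hm]
      exact div_ne_zero h2 h1
  · rintro f ⟨P, R, hR, hf⟩
    by_cases hP : P = 0
    · refine ⟨0, 1, one_ne_zero, ?_⟩
      filter_upwards [hf] with m hm
      rw [hm, hP, Polynomial.eval_zero, zero_div, inv_zero, zero_div]
    · refine ⟨R, P, hP, ?_⟩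
      filter_upwards [hf] with m hm
      rw [hm, inv_div]

/-- sequences modulo eventually zero sequences, as a function of `t m` -/
theorem ratB_tr {t : ℕ → ℂ} (ht : Function.Injective t) : TrLe (ratB t ht) 1 := by
  classical
  intro b hb
  let ev : Polynomial ℂ →ₐ[ℂ] (ℕ → ℂ) ⧸ EZ := (mk' EZ).comp (Polynomial.aeval t)
  have hevv : ∀ P : Polynomial ℂ, ev P = mk' EZ (fun m => P.eval (t m)) := by
    intro P
    change mk' EZ (Polynomial.aeval t P) = _
    congr 1
    funext m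
    have := Polynomial.aeval_algHom_apply (Pi.evalAlgHom ℂ (fun _ : ℕ => ℂ) m) t P
    change Polynomial.aeval (t m) P = _ at this
    rw [Polynomial.coe_aeval_eq_eval] at this
    exact this.symm
  have hunit : ∀ P : nonZeroDivisors (Polynomial ℂ), IsUnit (ev P) := by
    intro P
    have hP : (P : Polynomial ℂ) ≠ 0 := nonZeroDivisors.ne_zero P.2
    rw [hevv]
    refine IsUnit.of_mul_eq_one (mk' EZ (fun m => ((P : Polynomial ℂ).eval (t m))⁻¹)) ?_
    rw [← map_mul, ← map_one (mk' EZ), ← sub_eq_zero, ← map_sub]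
    refine mk'_zero.2 ?_
    rw [mem_EZ]
    filter_upwards [ev_ne ht hP] with m hm
    rw [Pi.sub_apply, Pi.mul_apply, Pi.one_apply, mul_inv_cancel₀ hm, sub_self]
  let ψ : RatFunc ℂ →+* (ℕ → ℂ) ⧸ EZ :=
    IsLocalization.lift (M := nonZeroDivisors (Polynomial ℂ)) (g := (ev : Polynomial ℂ →+* _)) hunit
  have hψ : ∀ P : Polynomial ℂ, ψ (algebraMap (Polynomial ℂ) (RatFunc ℂ) P) = ev P := fun P =>
    IsLocalization.lift_eq _ P
  choose P R hR hf using hb
  let r : Fin (1 + 1) → RatFunc ℂ := fun i =>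
    algebraMap (Polynomial ℂ) (RatFunc ℂ) (P i) / algebraMap (Polynomial ℂ) (RatFunc ℂ) (R i)
  have hψr : ∀ i, ψ (r i) = mk' EZ (b i) := by
    intro i
    have h1 : r i * algebraMap (Polynomial ℂ) (RatFunc ℂ) (R i) =
        algebraMap (Polynomial ℂ) (RatFunc ℂ) (P i) := by
      apply div_mul_cancel₀
      intro h0
      exact hR i ((map_eq_zero_iff _ (RatFunc.algebraMap_injective ℂ)).1 h0)
    have h2 := congrArg ψ h1
    rw [map_mul, hψ, hψ] at h2
    have h3 : mk' EZ (b i) * ev (R i) = ev (P i) := by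
      rw [hevv, hevv, ← map_mul, ← sub_eq_zero, ← map_sub]
      refine mk'_zero.2 ?_
      rw [mem_EZ]
      filter_upwards [hf i, ev_ne ht (hR i)] with m h4 h5
      rw [Pi.sub_apply, Pi.mul_apply, h4, div_mul_cancel₀ _ h5, sub_self]
    have h4 := hunit ⟨R i, mem_nonZeroDivisors_of_ne_zero (hR i)⟩
    exact h4.mul_right_cancel (h2.trans h3.symm)
  have hnot : ¬ AlgebraicIndependent ℂ r := by
    intro h
    have h1 := h.lift_cardinalMk_le_trdeg
    have h2 : Algebra.trdeg ℂ (RatFunc ℂ) = ((0 + 1 : ℕ) : Cardinal) :=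
      trdeg_ratFunc ℂ ℂ (by simpa using (trdeg_eq_zero : Algebra.trdeg ℂ ℂ = 0))
    rw [h2] at h1
    simp only [Cardinal.mk_fin, Cardinal.lift_natCast, Nat.cast_le] at h1
    omega
  rw [algebraicIndependent_iff] at hnot
  push Not at hnot
  obtain ⟨F, hF, hF0⟩ := hnot
  refine ⟨F, hF0, ?_⟩
  have hψa : ∀ c : ℂ, ψ (algebraMap ℂ (RatFunc ℂ) c) = algebraMap ℂ _ c := by
    intro c
    rw [IsScalarTower.algebraMap_apply ℂ (Polynomial ℂ) (RatFunc ℂ), hψ]
    exact ev.commutes c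
  let ψ' : RatFunc ℂ →ₐ[ℂ] (ℕ → ℂ) ⧸ EZ := { ψ with commutes' := hψa }
  have h1 : ψ' (aeval r F) = 0 := by rw [hF, map_zero]
  rw [MvPolynomial.comp_aeval_apply] at h1
  have h2 : (fun i => ψ' (r i)) = fun i => mk' EZ (b i) := by
    funext i
    exact hψr i
  rw [h2, ← MvPolynomial.comp_aeval_apply, mk'_zero, mem_EZ] at h1
  filter_upwards [h1] with m hm
  have h7 := MvPolynomial.comp_aeval_apply (f := b) (Pi.evalAlgHom ℂ (fun _ : ℕ => ℂ) m) F
  have h8 : (aeval b F : ℕ → ℂ) m = aeval (fun i => b i m) F := h7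
  rw [h8, MvPolynomial.aeval_eq_eval] at hm
  exact hm

/-- The sequence `f` satisfies a nontrivial linear recurrence whose coefficients are polynomials in
`t m`. For `t m = m` these are the P-recursive sequences. -/
def RecAlong (t f : ℕ → ℂ) : Prop :=
  ∃ (r : ℕ) (a : ℕ → Polynomial ℂ), (∃ k ≤ r, a k ≠ 0) ∧
    ∀ m, ∑ k ∈ Finset.range (r + 1), (a k).eval (t m) * f (m + k) = 0

theorem RecAlong.linRec {t f : ℕ → ℂ} (ht : Function.Injective t) (h : RecAlong t f) :
    LinRec (ratB t ht) f := by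
  obtain ⟨r, a, ⟨k, hk, hk0⟩, h⟩ := h
  refine ⟨r, fun k m => (a k).eval (t m), fun k => poly_mem ht (a k), ⟨k, hk, fun h0 => ?_⟩,
    Eventually.of_forall h⟩
  obtain ⟨m, h1, h2⟩ := (h0.and (ev_ne ht hk0)).exists
  exact h2 h1

/-! ### density -/

variable {N : ℕ} {K : Type} [Field K] [Algebra ℂ K] {w : ℕ}
  {y : Fin (N + 1) → K} {p : Ideal (MvPolynomial (Fin (N + 1)) ℂ)}
  {Q : MvPolynomial (Fin (N + 1)) ℂ}

/-- The sequence `x` of points is Zariski-dense in the variety with the ideal `p`. -/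
def SeqDense (p : Ideal (MvPolynomial (Fin (N + 1)) ℂ)) (x : ℕ → Fin (N + 1) → ℂ) : Prop :=
  ∀ H : MvPolynomial (Fin (N + 1)) ℂ, IsForm H → (∀ m, eval (x m) H = 0) → H ∈ p

/-- a linear form through a given point -/
theorem exists_line (hy : FunField p Q K w y) (hw : 1 ≤ w) (v : Fin (N + 1) → ℂ) :
    ∃ ℓ : MvPolynomial (Fin (N + 1)) ℂ, ℓ.IsHomogeneous 1 ∧ W602.GT.val y ℓ ≠ 0 ∧
      eval v ℓ = 0 := by
  classical
  by_contra hcon
  push Not at hcon
  obtain ⟨i0, hi0⟩ := Function.ne_iff.1 hy.sub.ne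
  have hi0' : y i0 ≠ 0 := hi0
  have hv : v i0 ≠ 0 := by
    intro h0
    refine hcon (X i0) (isHomogeneous_X _ _) ?_ (by rw [eval_X, h0])
    rw [val_X]
    exact hi0'
  have h1 : ∀ i, y i / y i0 = algebraMap ℂ K (v i / v i0) := by
    intro i
    by_contra hne
    refine hcon (C (v i0) * X i - C (v i) * X i0) ?_ ?_ ?_
    · have h2 := (isHomogeneous_C (Fin (N + 1)) (v i0)).mul (isHomogeneous_X ℂ i)
      have h3 := (isHomogeneous_C (Fin (N + 1)) (v i)).mul (isHomogeneous_X ℂ i0)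
      rw [zero_add] at h2 h3
      exact h2.sub h3
    · unfold W602.GT.val
      rw [map_sub, map_mul, map_mul, aeval_C, aeval_C, aeval_X, aeval_X]
      intro h0
      apply hne
      have hv' : algebraMap ℂ K (v i0) ≠ 0 := by rwa [Ne, map_eq_zero]
      rw [map_div₀, div_eq_div_iff hi0' hv']
      linear_combination h0
    · rw [map_sub, map_mul, map_mul, eval_C, eval_C, eval_X, eval_X]
      ring
  have h2 : coords ℂ y ≤ ⊥ := by
    unfold coords
    rw [IntermediateField.adjoin_le_iff]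
    rintro _ ⟨i, j, hj, rfl⟩
    have h3 : y i / y j = (y i / y i0) / (y j / y i0) := by
      field_simp
    rw [h3, h1, h1, ← map_div₀]
    exact IntermediateField.algebraMap_mem _ _
  rw [hy.sub.gen, top_le_iff] at h2
  have h3 : Algebra.IsAlgebraic ℂ K := by
    refine ⟨fun z => ?_⟩
    have h4 : z ∈ (⊥ : IntermediateField ℂ K) := by rw [h2]; exact IntermediateField.mem_top
    obtain ⟨c, rfl⟩ := IntermediateField.mem_bot.1 h4
    exact isAlgebraic_algebraMap c
  have h4 : Algebra.trdeg ℂ K = 0 := trdeg_eq_zero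
  rw [hy.sub.dim] at h4
  have h5 : w = 0 := by exact_mod_cast h4
  omega

theorem SeqDense.tail (hy : FunField p Q K w y) (hw : 1 ≤ w) {x : ℕ → Fin (N + 1) → ℂ}
    (h : SeqDense p x) : TailDense p x := by
  classical
  rintro H ⟨e, hH⟩ hz
  choose ℓ hℓ hℓy hℓx using fun m => exists_line hy hw (x m)
  obtain ⟨m0, hm0⟩ := eventually_atTop.1 hz
  have h1 : (H * ∏ m ∈ Finset.range m0, ℓ m) ∈ p := by
    refine h _ ⟨e + ∑ m ∈ Finset.range m0, 1, hH.mul
      (IsHomogeneous.prod _ _ _ fun m _ => hℓ m)⟩ fun m => ?_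
    rw [map_mul, map_prod]
    by_cases hm : m0 ≤ m
    · rw [hm0 m hm, zero_mul]
    · rw [Finset.prod_eq_zero (Finset.mem_range.2 (not_le.1 hm)) (hℓx m), mul_zero]
  have h2 := hy.sub.mem _ h1
  rw [val_mul'] at h2
  rcases mul_eq_zero.1 h2 with h3 | h3
  · exact hy.mem H ⟨e, hH⟩ h3
  · exfalso
    unfold W602.GT.val at h3
    rw [map_prod, Finset.prod_eq_zero_iff] at h3
    obtain ⟨m, _, hm⟩ := h3
    exact hℓy m hm

end Pool.Agent.TH143.DE
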