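import Pool.Agent.TH143.DE.Tan
import Pool.Agent.TH143.GT.Dir
import Pool.Agent.TH143.GT.Emb

/-!
Linear difference equations: the family of rational curves through the points of a sequence.
-/

set_option autoImplicit false

namespace Pool.Agent.TH143.DE

open MvPolynomial Filter

/-- evaluation at an index and at a point of the line -/
noncomputable def evp (m : ℕ) (x : ℂ) : Polynomial (ℕ → ℂ) →ₐ[ℂ] ℂ :=
  (Polynomial.aeval x).comp (Polynomial.mapAlgHom (Pi.evalAlgHom ℂ (fun _ : ℕ => ℂ) m))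

theorem evp_eq (m : ℕ) (x : ℂ) (p : Polynomial (ℕ → ℂ)) :
    evp m x p = (p.map (Pi.evalAlgHom ℂ (fun _ : ℕ => ℂ) m : (ℕ → ℂ) →+* ℂ)).eval x := by
  unfold evp
  rw [AlgHom.comp_apply, Polynomial.aeval_def, Polynomial.coe_mapAlgHom]
  rfl

theorem evp_C (m : ℕ) (x : ℂ) (c : ℕ → ℂ) : evp m x (Polynomial.C c) = c m := by
  rw [evp_eq, Polynomial.map_C, Polynomial.eval_C]
  rfl

theorem evp_X (m : ℕ) (x : ℂ) : evp m x Polynomial.X = x := by
  rw [evp_eq, Polynomial.map_X, Polynomial.eval_X]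

theorem evp_ext {m : ℕ} {p q : Polynomial (ℕ → ℂ)} (h : ∀ x : ℂ, x ≠ 0 → evp m x p = evp m x q)
    (i : ℕ) : p.coeff i m = q.coeff i m := by
  have h1 : p.map (Pi.evalAlgHom ℂ (fun _ : ℕ => ℂ) m : (ℕ → ℂ) →+* ℂ) =
      q.map (Pi.evalAlgHom ℂ (fun _ : ℕ => ℂ) m : (ℕ → ℂ) →+* ℂ) := by
    apply Polynomial.eq_of_infinite_eval_eq
    refine Set.Infinite.mono (s := {x : ℂ | x ≠ 0}) ?_ ?_
    · intro x hx
      have := h x hx
      rw [evp_eq, evp_eq] at this
      exact this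
    · exact (Set.finite_singleton (0 : ℂ)).infinite_compl
  have h2 := congrArg (fun r => Polynomial.coeff r i) h1
  simp only [Polynomial.coeff_map] at h2
  exact h2

theorem evp_deriv (m : ℕ) (x : ℂ) (p : Polynomial (ℕ → ℂ)) :
    HasDerivAt (fun x => evp m x p) (evp m x (Polynomial.derivative p)) x := by
  simp only [evp_eq]
  rw [← Polynomial.derivative_map]
  exact Polynomial.hasDerivAt _ x

theorem evp_aeval {σ : Type} (m : ℕ) (x : ℂ) (W : σ → Polynomial (ℕ → ℂ))
    (R : MvPolynomial σ ℂ) : evp m x (aeval W R) = eval (fun j => evp m x (W j)) R := by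
  have h4 := MvPolynomial.comp_aeval_apply (f := W) (evp m x) R
  rw [h4, ← MvPolynomial.aeval_eq_eval]

theorem evp_one (m : ℕ) (p : Polynomial (ℕ → ℂ)) : evp m 1 p = (p.eval 1) m := by
  rw [evp_eq, Polynomial.eval_map, Polynomial.eval₂_at_one]
  rfl

/-- Laurent polynomials over the ring of sequences -/
def PL (F : ℕ → ℂ → ℂ) : Prop :=
  ∃ (a : ℕ) (p : Polynomial (ℕ → ℂ)), ∀ (m : ℕ) (x : ℂ), x ≠ 0 → x ^ a * F m x = evp m x p

theorem PL.seq (c : ℕ → ℂ) : PL fun m _ => c m :=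
  ⟨0, Polynomial.C c, fun m x _ => by rw [evp_C, pow_zero, one_mul]⟩

theorem PL.laur {f : ℂ → ℂ} {a : ℕ} {p : Polynomial ℂ} (h : ∀ x, x ≠ 0 → x ^ a * f x = p.eval x) :
    PL fun _ x => f x :=
  ⟨a, p.map (algebraMap ℂ (ℕ → ℂ)), fun m x hx => by
    rw [evp_eq, Polynomial.map_map, h x hx]
    congr 1
    conv_lhs => rw [← Polynomial.map_id (p := p)]
    congr 1⟩

theorem PL.add {F G : ℕ → ℂ → ℂ} (hF : PL F) (hG : PL G) : PL fun m x => F m x + G m x := by
  obtain ⟨a, p, hp⟩ := hF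
  obtain ⟨b, q, hq⟩ := hG
  refine ⟨a + b, Polynomial.X ^ b * p + Polynomial.X ^ a * q, fun z x hx => ?_⟩
  rw [map_add, map_mul, map_mul, map_pow, map_pow, evp_X, ← hp z x hx, ← hq z x hx]
  ring

theorem PL.mul {F G : ℕ → ℂ → ℂ} (hF : PL F) (hG : PL G) : PL fun m x => F m x * G m x := by
  obtain ⟨a, p, hp⟩ := hF
  obtain ⟨b, q, hq⟩ := hG
  refine ⟨a + b, p * q, fun z x hx => ?_⟩
  rw [map_mul, ← hp z x hx, ← hq z x hx]
  ring

theorem PL.sum {ι : Type} (s : Finset ι) {F : ι → ℕ → ℂ → ℂ} (hF : ∀ i ∈ s, PL (F i)) :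
    PL fun m x => ∑ i ∈ s, F i m x := by
  classical
  induction s using Finset.induction_on with
  | empty => simpa using PL.seq 0
  | insert i s hi ih =>
    simp only [Finset.sum_insert hi]
    exact (hF i (Finset.mem_insert_self i s)).add
      (ih fun j hj => hF j (Finset.mem_insert_of_mem hj))

theorem PL.eval {κ : Type} {h : ℕ → ℂ → κ → ℂ} (hh : ∀ l, PL fun m x => h m x l)
    (P : MvPolynomial κ ℂ) : PL fun m x => MvPolynomial.eval (h m x) P := by
  induction P using MvPolynomial.induction_on with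
  | C a => simpa using PL.seq (fun _ => a)
  | add p q hp hq =>
    simp only [map_add]
    exact hp.add hq
  | mul_X p j hp =>
    simp only [map_mul, eval_X]
    exact hp.mul (hh j)

theorem PL.common {J : Type} [Fintype J] {F : J → ℕ → ℂ → ℂ} (hF : ∀ j, PL (F j)) :
    ∃ (a : ℕ) (p : J → Polynomial (ℕ → ℂ)), ∀ (m : ℕ) (x : ℂ), x ≠ 0 →
      ∀ j, x ^ a * F j m x = evp m x (p j) := by
  classical
  choose a p hp using hF
  refine ⟨∑ j, a j, fun j => Polynomial.X ^ (∑ i ∈ Finset.univ.erase j, a i) * p j,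
    fun z x hx j => ?_⟩
  rw [map_mul, map_pow, evp_X, ← hp j z x hx, ← Finset.add_sum_erase _ _ (Finset.mem_univ j),
    pow_add]
  ring

/-- directions which are not stationary modulo an ideal of sequences -/
theorem exists_dir_seq {m : ℕ} (g : Fin m → ℂ → ℂ) (hg : ∀ i, Differentiable ℂ (g i))
    (I : Ideal (ℕ → ℂ)) (c : ℕ → Fin (m + 1) → ℂ)
    (hc : (fun s => ∑ l, c s l * (Fin.cons 1 (fun i => Complex.exp (g i 0) * deriv (g i) 0) :
      Fin (m + 1) → ℂ) l) ∉ I) :
    ∃ (ξ : ℂ → Fin (m + 1) → ℂ) (ξ' : Fin (m + 1) → ℂ) (a : ℕ) (p : Fin (m + 1) → Polynomial ℂ),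
      (∀ x, x ≠ 0 → ∀ l, x ^ a * ξ x l = (p l).eval x) ∧
      ξ 1 = Pool.Agent.H159R3.Exp.vec g 0 ∧
      (∀ R : MvPolynomial (Fin (m + 1)) ℂ,
        (∀ t, MvPolynomial.eval (Pool.Agent.H159R3.Exp.vec g t) R = 0) →
        ∀ x, x ≠ 0 → MvPolynomial.eval (ξ x) R = 0) ∧
      (∀ l, HasDerivAt (fun x => ξ x l) (ξ' l) 1) ∧ (fun s => ∑ l, c s l * ξ' l) ∉ I := by
  classical
  set γ : Fin (m + 1) → ℂ := Fin.cons 1 (fun i => Complex.exp (g i 0) * deriv (g i) 0) with hγ
  let V : Submodule ℂ (Fin (m + 1) → ℂ) :=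
    { carrier := {v | (fun s => ∑ l, c s l * v l) ∈ I}
      add_mem' := by
        intro v w hv hw
        have h1 : (fun s => ∑ l, c s l * (v + w) l) =
            (fun s => ∑ l, c s l * v l) + fun s => ∑ l, c s l * w l := by
          funext s
          rw [Pi.add_apply, ← Finset.sum_add_distrib]
          exact Finset.sum_congr rfl fun l _ => by rw [Pi.add_apply, mul_add]
        change (fun s => ∑ l, c s l * (v + w) l) ∈ I
        rw [h1]
        exact I.add_mem hv hw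
      zero_mem' := by
        have h1 : (fun s => ∑ l, c s l * (0 : Fin (m + 1) → ℂ) l) = 0 := by
          funext s
          simp
        change (fun s => ∑ l, c s l * (0 : Fin (m + 1) → ℂ) l) ∈ I
        rw [h1]
        exact I.zero_mem
      smul_mem' := by
        intro a v hv
        have h1 : (fun s => ∑ l, c s l * (a • v) l) = (fun _ => a) * fun s => ∑ l, c s l * v l := by
          funext s
          rw [Pi.mul_apply, Finset.mul_sum]
          exact Finset.sum_congr rfl fun l _ => by rw [Pi.smul_apply, smul_eq_mul]; ring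
        change (fun s => ∑ l, c s l * (a • v) l) ∈ I
        rw [h1]
        exact I.mul_mem_left _ hv }
  have hγV : γ ∉ V := hc
  obtain ⟨φ, hφ, hφV⟩ := Submodule.exists_dual_map_eq_bot_of_notMem hγV inferInstance
  have hφe : ∀ v : Fin (m + 1) → ℂ, φ v = ∑ l, φ (Pi.single l 1) * v l := by
    intro v
    conv_lhs => rw [pi_eq_sum_univ' v]
    rw [map_sum]
    exact Finset.sum_congr rfl fun l _ => by rw [map_smul, smul_eq_mul, mul_comm]
  obtain ⟨ξ, ξ', a, p, h1, h2, h3, h4, h5⟩ := Pool.Agent.TH143.GT.exists_dir g hg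
    (fun l => φ (Pi.single l 1)) (by
      rw [← hγ, ← hφe]
      exact hφ)
  refine ⟨ξ, ξ', a, p, h1, h2, h3, h4, fun hcon => h5 ?_⟩
  rw [← hφe]
  have h6 : φ ξ' ∈ V.map φ := Submodule.mem_map_of_mem (show ξ' ∈ V from hcon)
  rw [hφV] at h6
  exact (Submodule.mem_bot ℂ).1 h6

end Pool.Agent.TH143.DE
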