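import Pool.Agent.TH143.DE.Main
import Pool.Agent.TH143.DE.Sys
import Pool.Agent.TH143.GT.Desc
import Pool.Agent.TH143.GT.Fin
import Pool.Agent.TH143.GT.Kod

/-!
Linear difference equations: families of rational curves over a finitely generated field.
-/

set_option autoImplicit false

namespace Pool.Agent.TH143.DE

open MvPolynomial Filter Pool.Agent.TH143 Pool.Agent.TH143.GT Pool.Agent.W602.GT
  Pool.Agent.W603.BP Pool.Agent.W603.GR Pool.Agent.W603.BPR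

variable {n N : ℕ} {B : Subalgebra ℂ (ℕ → ℂ)} {I : Ideal (ℕ → ℂ)}

/-- polynomials over the sequences modulo an ideal -/
noncomputable def mk' (I : Ideal (ℕ → ℂ)) : (ℕ → ℂ) →ₐ[ℂ] (ℕ → ℂ) ⧸ I := Ideal.Quotient.mkₐ ℂ I

theorem mk'_zero {f : ℕ → ℂ} : mk' I f = 0 ↔ f ∈ I := Ideal.Quotient.eq_zero_iff_mem

theorem map_eq_of_evp (hI : EZ ≤ I) {p q : Polynomial (ℕ → ℂ)}
    (h : ∀ᶠ m in atTop, ∀ x, x ≠ 0 → evp m x p = evp m x q) :
    p.map (mk' I : (ℕ → ℂ) →+* (ℕ → ℂ) ⧸ I) = q.map (mk' I : (ℕ → ℂ) →+* (ℕ → ℂ) ⧸ I) := by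
  ext1 i
  rw [Polynomial.coeff_map, Polynomial.coeff_map, ← sub_eq_zero, ← map_sub]
  refine mk'_zero.2 (hI ?_)
  rw [mem_EZ]
  filter_upwards [h] with m hm
  rw [Pi.sub_apply, evp_ext hm, sub_self]

theorem eval_one_map (p : Polynomial (ℕ → ℂ)) :
    (p.map (mk' I : (ℕ → ℂ) →+* (ℕ → ℂ) ⧸ I)).eval 1 = mk' I (fun m => evp m 1 p) := by
  rw [Polynomial.eval_map, Polynomial.eval₂_at_one]
  change mk' I (p.eval 1) = _
  congr 1
  funext m
  rw [evp_one]

/-- **The family of rational curves.** -/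
theorem fam_of_der (hB : CoefField B) (A : Fin n → Fin n → B) (U : ℕ → Matrix (Fin n) (Fin n) ℂ)
    (hU : ∀ᶠ m in atTop, U (m + 1) = Am A m * U m) (hdet : ∀ᶠ m in atTop, (U m).det ≠ 0)
    (hI : EZ ≤ I) {K : Type} [Field K]
    [Algebra ((ℕ → ℂ) ⧸ I) K] [IsDomain ((ℕ → ℂ) ⧸ I)] [IsFractionRing ((ℕ → ℂ) ⧸ I) K]
    (D : K → K) (hadd : ∀ x y, D (x + y) = D x + D y)
    (hmul : ∀ x y, D (x * y) = x * D y + y * D x)
    (hDB : ∀ b ∈ B, D (algebraMap ((ℕ → ℂ) ⧸ I) K (cl I b)) = 0)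
    (Φ : Fin (N + 1) → MvPolynomial (Fin n × Fin n) ℂ)
    (g0 g1 : MvPolynomial (Fin (N + 1)) ℂ) {d : ℕ} (hg0 : g0.IsHomogeneous d)
    (hg1 : g1.IsHomogeneous d)
    (hG : D (algebraMap ((ℕ → ℂ) ⧸ I) K (cl I fun m => eval (pt U Φ m) g1)) *
        algebraMap ((ℕ → ℂ) ⧸ I) K (cl I fun m => eval (pt U Φ m) g0) -
      algebraMap ((ℕ → ℂ) ⧸ I) K (cl I fun m => eval (pt U Φ m) g1) *
        D (algebraMap ((ℕ → ℂ) ⧸ I) K (cl I fun m => eval (pt U Φ m) g0)) ≠ 0)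
    (Q : MvPolynomial (Fin (N + 1)) ℂ) {e : ℕ} (hQe : Q.IsHomogeneous e)
    (hQ0 : ∀ᶠ m in atTop, eval (pt U Φ m) Q ≠ 0) (b : B)
    (hQ : ∀ᶠ m in atTop, eval (pt U Φ (m + 1)) Q = (b : ℕ → ℂ) m * eval (pt U Φ m) Q) :
    ∃ (M : Type) (_ : Field M) (_ : Algebra ℂ M) (m : ℕ), Algebra.trdeg ℂ M = m ∧
      ∃ W : Fin (N + 1) → Polynomial M,
        (∀ G : MvPolynomial (Fin (N + 1)) ℂ, IsForm G →
          (∀ᶠ m in atTop, eval (pt U Φ m) G = 0) → aeval W G = 0) ∧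
        (∀ G : MvPolynomial (Fin (N + 1)) ℂ, aeval W G = 0 →
          (fun m => eval (pt U Φ m) G) ∈ I) ∧
        (∃ (c : M) (k : ℕ), c ≠ 0 ∧ aeval W Q = Polynomial.C c * Polynomial.X ^ k) ∧
        Polynomial.derivative (aeval W g1) * aeval W g0 ≠
          aeval W g1 * Polynomial.derivative (aeval W g0) := by
  obtain ⟨W0, hR, h1, ⟨h, k, hQW⟩, hN⟩ := emb hB A U hU hdet hI D hadd hmul hDB Φ g0 g1 hg0 hg1 hG
    Q hQe hQ0 b hQ
  let W : Fin (N + 1) → Polynomial ((ℕ → ℂ) ⧸ I) := fun j =>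
    (W0 j).map (mk' I : (ℕ → ℂ) →+* (ℕ → ℂ) ⧸ I)
  have hW : ∀ G : MvPolynomial (Fin (N + 1)) ℂ, aeval W G =
      (aeval W0 G).map (mk' I : (ℕ → ℂ) →+* (ℕ → ℂ) ⧸ I) := fun G =>
    (map_aeval' (mk' I) W0 G).symm
  have hev : ∀ (G : MvPolynomial (Fin (N + 1)) ℂ) (m : ℕ), evp m 1 (aeval W0 G) =
      eval (pt U Φ m) G := by
    intro G m
    rw [evp_aeval]
    congr 1
    congr 1
    funext j
    exact h1 j m
  have hval : ∀ G : MvPolynomial (Fin (N + 1)) ℂ, aeval W G = 0 →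
      (fun m => eval (pt U Φ m) G) ∈ I := by
    intro G hG0
    have h2 := congrArg (Polynomial.eval 1) hG0
    rw [hW, eval_one_map, Polynomial.eval_zero, mk'_zero] at h2
    simpa only [hev] using h2
  obtain ⟨M, i1, i2, m, hm, W', e1, e2, e3⟩ := desc W g0 g1 Q
    ⟨h.map (mk' I : (ℕ → ℂ) →+* (ℕ → ℂ) ⧸ I), mk' I (fun m => eval (pt U Φ m) Q), k, by
      intro h0
      have h2 := mk'_zero.1 h0
      have h3 : (fun m => (eval (pt U Φ m) Q)⁻¹ * eval (pt U Φ m) Q) ∈ I :=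
        I.mul_mem_left (fun m => (eval (pt U Φ m) Q)⁻¹) h2
      have h4 : (1 : ℕ → ℂ) - (fun m => (eval (pt U Φ m) Q)⁻¹ * eval (pt U Φ m) Q) ∈ I := by
        apply hI
        rw [mem_EZ]
        filter_upwards [hQ0] with m hm
        rw [Pi.sub_apply, Pi.one_apply, inv_mul_cancel₀ hm, sub_self]
      have h5 := I.add_mem h4 h3
      rw [sub_add_cancel] at h5
      have h6 : mk' I 1 = 0 := mk'_zero.2 h5
      rw [map_one] at h6
      exact one_ne_zero h6, by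
      rw [hW, ← Polynomial.map_mul]
      have h2 : Polynomial.C (mk' I (fun m => eval (pt U Φ m) Q)) * Polynomial.X ^ k =
          (Polynomial.C (fun m => eval (pt U Φ m) Q) * Polynomial.X ^ k : Polynomial (ℕ → ℂ)).map
            (mk' I : (ℕ → ℂ) →+* (ℕ → ℂ) ⧸ I) := by
        rw [Polynomial.map_mul, Polynomial.map_C, Polynomial.map_pow, Polynomial.map_X]
        rfl
      rw [h2]
      apply map_eq_of_evp hI
      filter_upwards [hQW] with m hm x hx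
      rw [hm x hx, map_mul, map_pow, evp_C, evp_X]⟩ (by
      intro h0
      apply hN
      have h2 : (Polynomial.derivative (aeval W0 g1) * aeval W0 g0 -
          aeval W0 g1 * Polynomial.derivative (aeval W0 g0)).map
            (mk' I : (ℕ → ℂ) →+* (ℕ → ℂ) ⧸ I) = 0 := by
        rw [Polynomial.map_sub, Polynomial.map_mul, Polynomial.map_mul, ← Polynomial.derivative_map,
          ← Polynomial.derivative_map, ← hW, ← hW, h0, sub_self]
      have h3 := congrArg (Polynomial.eval 1) h2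
      rwa [eval_one_map, Polynomial.eval_zero, mk'_zero] at h3)
  refine ⟨M, i1, i2, m, hm, W', fun G hG hz => ?_, fun G hG => hval G ((e1 G).1 hG), e2, e3⟩
  rw [e1, hW]
  have h2 : ∀ᶠ m in atTop, ∀ x, x ≠ 0 → evp m x (aeval W0 G) = evp m x 0 := by
    filter_upwards [hR G hG hz] with m hm x hx
    rw [hm x hx, map_zero]
  rw [map_eq_of_evp hI h2, Polynomial.map_zero]

/-- The coefficients have transcendence degree at most `d`. -/
def TrLe (B : Subalgebra ℂ (ℕ → ℂ)) (d : ℕ) : Prop :=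
  ∀ b : Fin (d + 1) → ℕ → ℂ, (∀ i, b i ∈ B) →
    ∃ P : MvPolynomial (Fin (d + 1)) ℂ, P ≠ 0 ∧ ∀ᶠ m in atTop, eval (fun i => b i m) P = 0

/-- the field of coefficients -/
noncomputable def cf (hB : CoefField B) (hI : EZ ≤ I) (K : Type) [Field K]
    [Algebra ((ℕ → ℂ) ⧸ I) K] [Algebra ℂ K] [IsScalarTower ℂ ((ℕ → ℂ) ⧸ I) K] :
    IntermediateField ℂ K where
  carrier := {z | ∃ b ∈ B, z = algebraMap ((ℕ → ℂ) ⧸ I) K (mk' I b)}
  mul_mem' := by
    rintro _ _ ⟨a, ha, rfl⟩ ⟨b, hb, rfl⟩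
    exact ⟨a * b, B.mul_mem ha hb, by rw [map_mul, map_mul]⟩
  add_mem' := by
    rintro _ _ ⟨a, ha, rfl⟩ ⟨b, hb, rfl⟩
    exact ⟨a + b, B.add_mem ha hb, by rw [map_add, map_add]⟩
  algebraMap_mem' := fun c => ⟨algebraMap ℂ (ℕ → ℂ) c, B.algebraMap_mem c, by
    rw [AlgHom.commutes]
    exact IsScalarTower.algebraMap_apply ℂ ((ℕ → ℂ) ⧸ I) K c⟩
  inv_mem' := by
    rintro _ ⟨a, ha, rfl⟩
    rcases hB.dich a ha with h | h
    · have h1 : mk' I a = 0 := mk'_zero.2 (hI h)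
      exact ⟨0, B.zero_mem, by rw [h1, map_zero, inv_zero, map_zero, map_zero]⟩
    · refine ⟨_, hB.inv a ha, ?_⟩
      have h1 : mk' I a * mk' I (fun m => (a m)⁻¹) = 1 := by
        rw [← map_mul, ← map_one (mk' I), ← sub_eq_zero, ← map_sub]
        refine mk'_zero.2 (hI ?_)
        rw [mem_EZ]
        filter_upwards [h] with m hm
        rw [Pi.sub_apply, Pi.mul_apply, Pi.one_apply, mul_inv_cancel₀ hm, sub_self]
      have h2 := congrArg (algebraMap ((ℕ → ℂ) ⧸ I) K) h1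
      rw [map_mul, map_one] at h2
      exact inv_eq_of_mul_eq_one_right h2

theorem trdeg_cf (hB : CoefField B) (hI : EZ ≤ I) {K : Type} [Field K]
    [Algebra ((ℕ → ℂ) ⧸ I) K] [Algebra ℂ K] [IsScalarTower ℂ ((ℕ → ℂ) ⧸ I) K] {d : ℕ}
    (hd : TrLe B d) : Algebra.trdeg ℂ (cf hB hI K) ≤ d := by
  by_contra hcon
  rw [not_le] at hcon
  obtain ⟨T, hT⟩ := exists_isTranscendenceBasis ℂ (cf hB hI K)
  have hcard := hT.cardinalMk_eq_trdeg
  have h1 : ((d + 1 : ℕ) : Cardinal) ≤ Cardinal.mk T := by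
    rw [hcard]
    by_contra h
    rw [not_le] at h
    obtain ⟨k, hk⟩ := Cardinal.lt_aleph0.1 (h.trans Cardinal.natCast_lt_aleph0)
    rw [hk, Nat.cast_lt] at h
    rw [hk, Nat.cast_lt] at hcon
    omega
  obtain ⟨f⟩ : Nonempty (Fin (d + 1) ↪ T) := by
    rw [← Cardinal.mk_fin] at h1
    exact Cardinal.lift_mk_le'.1 (by simpa using h1)
  have h2 : AlgebraicIndependent ℂ (fun i => ((f i : T) : cf hB hI K)) :=
    hT.1.comp f f.injective
  have h3 : ∀ i, ∃ b ∈ B, (((f i : T) : cf hB hI K) : K) =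
      algebraMap ((ℕ → ℂ) ⧸ I) K (mk' I b) := fun i => ((f i : T) : cf hB hI K).2
  choose b hb hbe using h3
  obtain ⟨P, hP0, hP⟩ := hd b hb
  apply hP0
  refine (AlgebraicIndependent.map' h2 (f := (cf hB hI K).val) (cf hB hI K).val.injective) ?_
  rw [map_zero]
  have h4 : (fun i => (cf hB hI K).val ((f i : T) : cf hB hI K)) = fun i =>
      (IsScalarTower.toAlgHom ℂ ((ℕ → ℂ) ⧸ I) K).comp (mk' I) (b i) := by
    funext i
    exact hbe i
  have h5 : aeval ((cf hB hI K).val ∘ fun i => ((f i : T) : cf hB hI K)) P =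
      (IsScalarTower.toAlgHom ℂ ((ℕ → ℂ) ⧸ I) K).comp (mk' I) (aeval b P) := by
    have h6 : ((cf hB hI K).val ∘ fun i => ((f i : T) : cf hB hI K)) = fun i =>
      (IsScalarTower.toAlgHom ℂ ((ℕ → ℂ) ⧸ I) K).comp (mk' I) (b i) := h4
    rw [h6, ← MvPolynomial.comp_aeval_apply]
  rw [h5, AlgHom.comp_apply]
  have h6 : mk' I (aeval b P) = 0 := by
    refine mk'_zero.2 (hI ?_)
    rw [mem_EZ]
    filter_upwards [hP] with m hm
    have h7 := MvPolynomial.comp_aeval_apply (f := b) (Pi.evalAlgHom ℂ (fun _ : ℕ => ℂ) m) P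
    have h8 : (aeval b P : ℕ → ℂ) m = aeval (fun i => b i m) P := h7
    rw [h8, MvPolynomial.aeval_eq_eval]
    exact hm
  rw [h6, map_zero]

/-- **A derivation over the coefficients.** -/
theorem exists_der_cf (hB : CoefField B) (hI : EZ ≤ I) {K : Type} [Field K]
    [Algebra ((ℕ → ℂ) ⧸ I) K] [Algebra ℂ K] [IsScalarTower ℂ ((ℕ → ℂ) ⧸ I) K] {d : ℕ}
    (hd : TrLe B d) {w : ℕ} (hw : d < w) (z : Fin w → K) (hz : AlgebraicIndependent ℂ z) :
    ∃ (D : K → K) (i : Fin w), (∀ x y, D (x + y) = D x + D y) ∧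
      (∀ x y, D (x * y) = x * D y + y * D x) ∧
      (∀ b ∈ B, D (algebraMap ((ℕ → ℂ) ⧸ I) K (cl I b)) = 0) ∧ D (z i) = 1 := by
  classical
  set E := cf hB hI K with hE
  obtain ⟨i, hi⟩ : ∃ i, Transcendental E (z i) := by
    by_contra hcon
    have hcon' : ∀ i, IsAlgebraic E (z i) := fun i => by
      by_contra h
      exact hcon ⟨i, h⟩
    let F : IntermediateField E K := algebraicClosure E K
    have halg : Algebra.IsAlgebraic E F := algebraicClosure.isAlgebraic E K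
    have h0 : Algebra.trdeg E F = 0 := trdeg_eq_zero
    have h1 := trdeg_add_eq ℂ E (A := F)
    rw [h0, add_zero] at h1
    have hmem : ∀ i, z i ∈ F := fun i => mem_algebraicClosure_iff.2 (hcon' i)
    have h2 : AlgebraicIndependent ℂ (fun i => (⟨z i, hmem i⟩ : F)) := by
      have h3 : AlgebraicIndependent ℂ (((F.val.restrictScalars ℂ) : F →ₐ[ℂ] K) ∘
          fun i => (⟨z i, hmem i⟩ : F)) := hz
      exact AlgebraicIndependent.of_comp _ h3
    have h3 := h2.lift_cardinalMk_le_trdeg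
    rw [← h1] at h3
    have h4 := trdeg_cf hB hI (K := K) hd
    have h5 : ((w : ℕ) : Cardinal) ≤ (d : ℕ) := by
      refine le_trans ?_ h4
      simpa using h3
    exact absurd (Nat.cast_le.1 h5) (by omega)
  obtain ⟨D, hD⟩ := der_of_transcendental hi
  refine ⟨D, i, fun x y => map_add D x y, fun x y => D.leibniz x y, fun b hb => ?_, hD⟩
  exact D.map_algebraMap (⟨_, b, hb, rfl⟩ : E)

end Pool.Agent.TH143.DE
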