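import Pool.Agent.TH143.DE.Lie
import Pool.Agent.TH143.Flow

/-!
Linear difference equations: the one-parameter groups in the difference Galois group.
-/

set_option autoImplicit false

namespace Pool.Agent.TH143.DE

open MvPolynomial Filter Metric

variable {n : ℕ} {B : Subalgebra ℂ (ℕ → ℂ)}

/-- `ex` is the one-parameter group with the generator `β` -/
structure ExpF (β : Matrix (Fin n) (Fin n) ℂ) (ex : ℂ → Matrix (Fin n) (Fin n) ℂ) : Prop where
  zero : ex 0 = 1
  der : ∀ t i j, HasDerivAt (fun s => ex s i j) ((ex t * β) i j) t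

theorem ExpF.sol {β : Matrix (Fin n) (Fin n) ℂ} {ex : ℂ → Matrix (Fin n) (Fin n) ℂ}
    (he : ExpF β ex) (V : Matrix (Fin n) (Fin n) ℂ) (t : ℂ) (l : Fin n × Fin n) :
    HasDerivAt (fun w => mv (V * ex w) l) (eval (mv (V * ex t)) (Wc β l)) t := by
  rw [eval_Wc]
  have h1 : HasDerivAt (fun s => ∑ k, V l.1 k * ex s k l.2)
      (∑ k, V l.1 k * (ex t * β) k l.2) t := by
    apply HasDerivAt.fun_sum
    intro k _
    exact (he.der t k l.2).const_mul (V l.1 k)
  have h2 : (fun w => mv (V * ex w) l) = fun s => ∑ k, V l.1 k * ex s k l.2 := by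
    funext s
    simp only [mv, Matrix.mul_apply]
  rw [h2, Matrix.mul_assoc, Matrix.mul_apply]
  exact h1

theorem ExpF.hasDerivAt {β : Matrix (Fin n) (Fin n) ℂ} {ex : ℂ → Matrix (Fin n) (Fin n) ℂ}
    (he : ExpF β ex) (V : Matrix (Fin n) (Fin n) ℂ) (P : MvPolynomial (Fin n × Fin n) ℂ) (t : ℂ) :
    HasDerivAt (fun w => eval (mv (V * ex w)) P) (eval (mv (V * ex t)) (Dc β P)) t :=
  hasDerivAt_sol (Wc β) (fun w => mv (V * ex w)) t (he.sol V t) P

theorem flow_ideal {β : Matrix (Fin n) (Fin n) ℂ} {ex : ℂ → Matrix (Fin n) (Fin n) ℂ}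
    (he : ExpF β ex) (V : Matrix (Fin n) (Fin n) ℂ) (I : Ideal (MvPolynomial (Fin n × Fin n) ℂ))
    (hD : ∀ p ∈ I, Dc β p ∈ I) (h0 : ∀ p ∈ I, eval (mv V) p = 0) :
    ∀ p ∈ I, ∀ t, eval (mv (V * ex t)) p = 0 := by
  intro p hp t
  have hit : ∀ k : ℕ, (Dc β)^[k] p ∈ I := by
    intro k
    induction k with
    | zero => exact hp
    | succ k ih =>
      rw [Function.iterate_succ_apply']
      exact hD _ ih
  have h1 := zero_of_derivs (a := 0) (r := ‖t‖ + 1)
    (fun k t => eval (mv (V * ex t)) ((Dc β)^[k] p)) (fun k z _ => by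
      have := he.hasDerivAt V ((Dc β)^[k] p) z
      rwa [← Function.iterate_succ_apply' (Dc β) k p] at this)
    (fun k => by
      change eval (mv (V * ex 0)) ((Dc β)^[k] p) = 0
      rw [he.zero, Matrix.mul_one]
      exact h0 _ (hit k)) t (by
      rw [mem_ball_zero_iff]
      linarith)
  exact h1

/-- **Relations are preserved along the flow.** -/
theorem flow {U : ℕ → Matrix (Fin n) (Fin n) ℂ} {k : ℕ}
    {P : Fin k → MvPolynomial (Fin n × Fin n) B} (hP : ∀ i, P i ∈ JU B U)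
    (hgen : ∀ P' ∈ JU B U, ∃ Q : Fin k → MvPolynomial (Fin n × Fin n) B,
        ∀ᶠ m in atTop, at' m P' = ∑ i, at' m (Q i) * at' m (P i))
    {β : Matrix (Fin n) (Fin n) ℂ} (hβ : ∀ P' ∈ JU B U, WB B β P' ∈ JU B U)
    {ex : ℂ → Matrix (Fin n) (Fin n) ℂ} (he : ExpF β ex)
    {P' : MvPolynomial (Fin n × Fin n) B} (hP' : P' ∈ JU B U) :
    ∀ᶠ m in atTop, ∀ t, eval (mv (U m * ex t)) (at' m P') = 0 := by
  classical
  choose Q hQ using fun i => hgen _ (hβ _ (hP i))
  obtain ⟨R, hR⟩ := hgen P' hP'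
  have hall : ∀ᶠ m in atTop, (∀ i, eval (mv (U m)) (at' m (P i)) = 0) ∧
      ∀ i, at' m (WB B β (P i)) = ∑ j, at' m (Q i j) * at' m (P j) :=
    (eventually_all.2 fun i => hP i).and (eventually_all.2 fun i => hQ i)
  filter_upwards [hall, hR] with m hm hRm
  obtain ⟨h1, h2⟩ := hm
  set I : Ideal (MvPolynomial (Fin n × Fin n) ℂ) := Ideal.span (Set.range fun i => at' m (P i))
    with hI
  have hmem : ∀ i, at' m (P i) ∈ I := fun i => Ideal.subset_span ⟨i, rfl⟩
  have hD : ∀ p ∈ I, Dc β p ∈ I := by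
    intro p hp
    obtain ⟨c, hc⟩ := Ideal.mem_span_range_iff_exists_fun.1 hp
    rw [← hc, map_sum]
    refine Ideal.sum_mem _ fun i _ => ?_
    rw [Derivation.leibniz, smul_eq_mul, smul_eq_mul, ← at'_WB, h2 i]
    refine Ideal.add_mem _ (Ideal.mul_mem_left _ _ (Ideal.sum_mem _ fun j _ =>
      Ideal.mul_mem_left _ _ (hmem j))) (Ideal.mul_mem_right _ _ (hmem i))
  have h0 : ∀ p ∈ I, eval (mv (U m)) p = 0 := by
    intro p hp
    obtain ⟨c, hc⟩ := Ideal.mem_span_range_iff_exists_fun.1 hp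
    rw [← hc, map_sum]
    refine Finset.sum_eq_zero fun i _ => ?_
    rw [map_mul, h1 i, mul_zero]
  refine flow_ideal he (U m) I hD h0 _ ?_
  rw [hRm]
  exact Ideal.sum_mem _ fun i _ => Ideal.mul_mem_left _ _ (hmem i)

/-- a polynomial with constant coefficients -/
noncomputable def cB (B : Subalgebra ℂ (ℕ → ℂ)) {κ : Type} (q : MvPolynomial κ ℂ) :
    MvPolynomial κ B := MvPolynomial.map (algebraMap ℂ B) q

theorem at'_cB {κ : Type} (m : ℕ) (q : MvPolynomial κ ℂ) : at' m (cB B q) = q := by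
  unfold at' cB
  rw [MvPolynomial.mapAlgHom_apply, MvPolynomial.map_map]
  have h1 : ((evm B m : B →+* ℂ).comp (algebraMap ℂ B)) = RingHom.id ℂ := by
    ext1 c
    rfl
  exact (congrArg (fun f => MvPolynomial.map f q) h1).trans (MvPolynomial.map_id q)

/-- **Semi-invariants are exponential along the flow.** -/
theorem flow_bd (hs : ∀ b ∈ B, (fun m => b (m + 1)) ∈ B) {A : Fin n → Fin n → B}
    {U : ℕ → Matrix (Fin n) (Fin n) ℂ} (hU : ∀ᶠ m in atTop, U (m + 1) = Am A m * U m) {k : ℕ}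
    {P : Fin k → MvPolynomial (Fin n × Fin n) B} (hP : ∀ i, P i ∈ JU B U)
    (hgen : ∀ P' ∈ JU B U, ∃ Q : Fin k → MvPolynomial (Fin n × Fin n) B,
        ∀ᶠ m in atTop, at' m P' = ∑ i, at' m (Q i) * at' m (P i))
    {β : Matrix (Fin n) (Fin n) ℂ} (hβ : ∀ P' ∈ JU B U, WB B β P' ∈ JU B U)
    {ex : ℂ → Matrix (Fin n) (Fin n) ℂ} (he : ExpF β ex)
    (q : MvPolynomial (Fin n × Fin n) ℂ) (hq0 : ∀ᶠ m in atTop, eval (mv (U m)) q ≠ 0) (b : B)
    (hq : ∀ᶠ m in atTop, eval (mv (U (m + 1))) q = (b : ℕ → ℂ) m * eval (mv (U m)) q) :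
    ∃ γ : ℂ, ∀ᶠ m in atTop, ∀ t, eval (mv (U m * ex t)) q =
      eval (mv (U m)) q * Complex.exp (γ * t) := by
  have hR1 : SS hs A (cB B q) - C b * cB B q ∈ JU B U := by
    rw [mem_JU]
    filter_upwards [hU, hq] with m h1 h2
    rw [map_sub, map_sub, map_mul, map_mul, at'_SS, at'_cB, at'_cB, at'_C, eval_bind_TA, ← h1, h2,
      eval_C, sub_self]
  have hR2 := mem_JU.1 (hβ _ hR1)
  have hrec : ∀ᶠ m in atTop, eval (mv (U (m + 1))) (Dc β q) =
      (b : ℕ → ℂ) m * eval (mv (U m)) (Dc β q) := by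
    filter_upwards [hU, hR2] with m h1 h2
    rw [at'_WB, map_sub, map_mul, at'_SS, at'_cB, at'_cB, at'_C, map_sub, comm_bind,
      Derivation.leibniz, derivation_C, smul_zero, add_zero, smul_eq_mul, map_sub, map_mul, eval_C,
      eval_bind_TA, ← h1, sub_eq_zero] at h2
    exact h2
  have hconst : ∀ᶠ m in atTop, eval (mv (U (m + 1))) (Dc β q) / eval (mv (U (m + 1))) q =
      eval (mv (U m)) (Dc β q) / eval (mv (U m)) q := by
    have hq1 : ∀ᶠ m in atTop, eval (mv (U (m + 1))) q ≠ 0 :=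
      (tendsto_add_atTop_nat 1).eventually hq0
    filter_upwards [hrec, hq, hq0, hq1] with m h1 h2 h3 h4
    have hb : (b : ℕ → ℂ) m ≠ 0 := by
      intro h0
      apply h4
      rw [h2, h0, zero_mul]
    rw [h1, h2, mul_div_mul_left _ _ hb]
  obtain ⟨m0, hm0⟩ := eventually_atTop.1 hconst
  set γ : ℂ := eval (mv (U m0)) (Dc β q) / eval (mv (U m0)) q with hγ
  have hγ' : ∀ m, m0 ≤ m → eval (mv (U m)) (Dc β q) / eval (mv (U m)) q = γ := by
    intro m hm
    induction m, hm using Nat.le_induction with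
    | base => rfl
    | succ m hm ih => rw [hm0 m hm, ih]
  have hR3 : cB B (Dc β q - C γ * q) ∈ JU B U := by
    rw [mem_JU]
    filter_upwards [eventually_ge_atTop m0, hq0] with m h1 h2
    rw [at'_cB, map_sub, map_mul, eval_C, ← hγ' m h1, div_mul_cancel₀ _ h2, sub_self]
  refine ⟨γ, ?_⟩
  filter_upwards [flow hP hgen hβ he hR3] with m hm t
  have h1 : ∀ t, HasDerivAt (fun t => eval (mv (U m * ex t)) q * Complex.exp (-γ * t)) 0 t := by
    intro t
    have h2 := he.hasDerivAt (U m) q t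
    have h3 : HasDerivAt (fun t : ℂ => Complex.exp (-γ * t)) (Complex.exp (-γ * t) * (-γ)) t := by
      have := ((hasDerivAt_id t).const_mul (-γ)).cexp
      simpa using this
    refine (h2.mul h3).congr_deriv ?_
    have h4 := hm t
    rw [at'_cB, map_sub, map_mul, eval_C, sub_eq_zero] at h4
    rw [h4]
    ring
  have h5 := is_const_of_deriv_eq_zero (fun t => (h1 t).differentiableAt)
    (fun t => (h1 t).deriv) t 0
  simp only [he.zero, mul_zero, Complex.exp_zero, mul_one] at h5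
  rw [← h5, mul_assoc, ← Complex.exp_add]
  simp

end Pool.Agent.TH143.DE
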