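import Pool.Agent.TH143.DE.Emb

/-!
Linear difference equations: the family of rational curves through the points of a sequence.
-/

set_option autoImplicit false

namespace Pool.Agent.TH143.DE

open MvPolynomial Filter Pool.Agent.TH143

variable {n N : ℕ} {B : Subalgebra ℂ (ℕ → ℂ)}

/-- the sequence of points given by polynomials in the entries of the matrices `U m` -/
noncomputable def pt (U : ℕ → Matrix (Fin n) (Fin n) ℂ)
    (Φ : Fin (N + 1) → MvPolynomial (Fin n × Fin n) ℂ) (m : ℕ) (j : Fin (N + 1)) : ℂ :=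
  eval (mv (U m)) (Φ j)

theorem eval_bind (Φ : Fin (N + 1) → MvPolynomial (Fin n × Fin n) ℂ)
    (R : MvPolynomial (Fin (N + 1)) ℂ) (x : Fin n × Fin n → ℂ) :
    eval x (bind₁ Φ R) = eval (fun j => eval x (Φ j)) R := by
  rw [eval, eval₂Hom_bind₁]
  rfl

theorem emb (hB : CoefField B) (A : Fin n → Fin n → B) (U : ℕ → Matrix (Fin n) (Fin n) ℂ)
    (hU : ∀ᶠ m in atTop, U (m + 1) = Am A m * U m) (hdet : ∀ᶠ m in atTop, (U m).det ≠ 0)
    {I : Ideal (ℕ → ℂ)} (hI : EZ ≤ I) {K : Type} [Field K]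
    [Algebra ((ℕ → ℂ) ⧸ I) K] [IsDomain ((ℕ → ℂ) ⧸ I)] [IsFractionRing ((ℕ → ℂ) ⧸ I) K]
    (D : K → K) (hadd : ∀ x y, D (x + y) = D x + D y)
    (hmul : ∀ x y, D (x * y) = x * D y + y * D x)
    (hDB : ∀ b ∈ B, D (algebraMap ((ℕ → ℂ) ⧸ I) K (cl I b)) = 0)
    (Φ : Fin (N + 1) → MvPolynomial (Fin n × Fin n) ℂ)
    (g0 g1 : MvPolynomial (Fin (N + 1)) ℂ) {d : ℕ} (hg0 : g0.IsHomogeneous d)
    (hg1 : g1.IsHomogeneous d)
    (hG : D (algebraMap ((ℕ → ℂ) ⧸ I) K (cl I fun m => eval (pt U Φ m) g1)) *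
        algebraMap ((ℕ → ℂ) ⧸ I) K (cl I fun m => eval (pt U Φ m) g0) -
      algebraMap ((ℕ → ℂ) ⧸ I) K (cl I fun m => eval (pt U Φ m) g1) *
        D (algebraMap ((ℕ → ℂ) ⧸ I) K (cl I fun m => eval (pt U Φ m) g0)) ≠ 0)
    (Q : MvPolynomial (Fin (N + 1)) ℂ) {e : ℕ} (hQe : Q.IsHomogeneous e)
    (hQ0 : ∀ᶠ m in atTop, eval (pt U Φ m) Q ≠ 0) (b : B)
    (hQ : ∀ᶠ m in atTop, eval (pt U Φ (m + 1)) Q = (b : ℕ → ℂ) m * eval (pt U Φ m) Q) :
    ∃ W : Fin (N + 1) → Polynomial (ℕ → ℂ),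
      (∀ R : MvPolynomial (Fin (N + 1)) ℂ, (∃ d, R.IsHomogeneous d) →
        (∀ᶠ m in atTop, eval (pt U Φ m) R = 0) →
          ∀ᶠ m in atTop, ∀ x, x ≠ 0 → evp m x (aeval W R) = 0) ∧
      (∀ j m, evp m 1 (W j) = pt U Φ m j) ∧
      (∃ (h : Polynomial (ℕ → ℂ)) (k : ℕ), ∀ᶠ m in atTop, ∀ x, x ≠ 0 →
        evp m x (aeval W Q * h) = eval (pt U Φ m) Q * x ^ k) ∧
      (fun m => evp m 1 (Polynomial.derivative (aeval W g1) * aeval W g0 -
        aeval W g1 * Polynomial.derivative (aeval W g0))) ∉ I := by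
  classical
  obtain ⟨L, k, P, hP, hgen, hL, hLW⟩ := lie hB A U hU
  set G0 := bind₁ Φ g0 with hG0
  set G1 := bind₁ Φ g1 with hG1
  have hev : ∀ (R : MvPolynomial (Fin (N + 1)) ℂ) (m : ℕ),
      eval (mv (U m)) (bind₁ Φ R) = eval (pt U Φ m) R := fun R m => eval_bind Φ R _
  obtain ⟨β, hβL, hβ⟩ := exists_beta (B := B) hI D hadd hmul hDB U hdet L P hP hL G0 G1 (by
    simp only [hG0, hG1, hev]
    exact hG)
  obtain ⟨ex, he0, he1, hEP⟩ := exists_exp_flow β
  have he : ExpF β ex := ⟨he0, he1⟩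
  have hflow : ∀ q : MvPolynomial (Fin n × Fin n) ℂ, (∀ᶠ m in atTop, eval (mv (U m)) q = 0) →
      ∀ᶠ m in atTop, ∀ t, eval (mv (U m * ex t)) q = 0 := by
    intro q hq
    have h1 := flow hP hgen (hLW β hβL) he (P' := cB B q) (by
      rw [mem_JU]
      filter_upwards [hq] with m hm
      rw [at'_cB]
      exact hm)
    filter_upwards [h1] with m hm t
    rw [← at'_cB (B := B) m q]
    exact hm t
  obtain ⟨γ, hγ⟩ := flow_bd hB.shift hU hP hgen (hLW β hβL) he (bind₁ Φ Q) (by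
    filter_upwards [hQ0] with m hm
    rw [hev]
    exact hm) b (by
    filter_upwards [hQ] with m hm
    rw [hev, hev]
    exact hm)
  -- common exponents
  let G : Option (Fin n × Fin n) → ℂ → ℂ := fun o =>
    o.elim (fun t => Complex.exp (-γ * t)) (fun p t => ex t p.1 p.2)
  have hGEP : ∀ o, EP (G o) := by
    intro o
    rcases o with _ | p
    · exact EP.exp _
    · exact hEP p.1 p.2
  obtain ⟨r, g, P', hg, hP'⟩ := EP.common G hGEP
  let T : ℕ → Fin n × Fin n → MvPolynomial (Fin (r + 1)) ℂ := fun m p =>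
    ∑ k, C (U m p.1 k) * P' (some (k, p.2))
  let Y : ℕ → (Fin (r + 1) → ℂ) → Fin n × Fin n → ℂ := fun m x l => eval x (T m l)
  have hYy : ∀ m t, Y m (Pool.Agent.H159R3.Exp.vec g t) = mv (U m * ex t) := by
    intro m t
    funext l
    simp only [Y, T, map_sum, map_mul, eval_C, ← hP', mv, Matrix.mul_apply]
    rfl
  have hYT : ∀ m x (R : MvPolynomial (Fin n × Fin n) ℂ),
      eval (Y m x) R = eval x (bind₁ (T m) R) := by
    intro m x R
    rw [eval, eval, eval₂Hom_bind₁]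
    rfl
  set v0 : Fin (r + 1) → ℂ := Pool.Agent.H159R3.Exp.vec g 0 with hv0
  have hvd : ∀ l, HasDerivAt (fun z => Pool.Agent.H159R3.Exp.vec g z l)
      ((Fin.cons 1 fun i => Complex.exp (g i 0) * deriv (g i) 0 : Fin (r + 1) → ℂ) l) 0 := by
    intro l
    refine Fin.cases ?_ (fun i => ?_) l
    · simpa [Pool.Agent.H159R3.Exp.vec] using hasDerivAt_id' (0 : ℂ)
    · simpa [Pool.Agent.H159R3.Exp.vec] using ((hg i) 0).hasDerivAt.cexp
  have hYv : ∀ m, Y m v0 = mv (U m) := by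
    intro m
    rw [hv0, hYy, he0, Matrix.mul_one]
  have hder : ∀ (m : ℕ) (R : MvPolynomial (Fin n × Fin n) ℂ),
      eval (mv (U m)) (Dc β R) = ∑ l, eval v0 (pderiv l (bind₁ (T m) R)) *
        (Fin.cons 1 fun i => Complex.exp (g i 0) * deriv (g i) 0 : Fin (r + 1) → ℂ) l := by
    intro m R
    have h1 := he.hasDerivAt (U m) R 0
    have h2 := Pool.Agent.H159R3.Exp.hasDerivAt_eval (Pool.Agent.H159R3.Exp.vec g) _ 0 hvd
      (bind₁ (T m) R)
    have h3 : (fun t => eval (mv (U m * ex t)) R) = fun t =>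
        eval (Pool.Agent.H159R3.Exp.vec g t) (bind₁ (T m) R) := by
      funext t
      rw [← hYT, hYy]
    rw [h3, he0, Matrix.mul_one] at h1
    exact h1.unique h2
  obtain ⟨ξ, ξ', ea, pp, hξp, hξ1, hξR, hξd, hξn⟩ := exists_dir_seq g hg I
    (fun m l => eval v0 (pderiv l (bind₁ (T m) G1)) * eval (mv (U m)) G0 -
      eval (mv (U m)) G1 * eval v0 (pderiv l (bind₁ (T m) G0))) (by
      have h1 : (fun m => eval (mv (U m)) (Dc β G1) * eval (mv (U m)) G0 -
          eval (mv (U m)) G1 * eval (mv (U m)) (Dc β G0)) = fun s => ∑ l,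
          (eval v0 (pderiv l (bind₁ (T s) G1)) * eval (mv (U s)) G0 -
            eval (mv (U s)) G1 * eval v0 (pderiv l (bind₁ (T s) G0))) *
          (Fin.cons 1 (fun i => Complex.exp (g i 0) * deriv (g i) 0) : Fin (r + 1) → ℂ) l := by
        funext s
        rw [hder, hder, Finset.sum_mul, Finset.mul_sum, ← Finset.sum_sub_distrib]
        exact Finset.sum_congr rfl fun l _ => by ring
      rw [h1] at hβ
      exact hβ)
  -- the Laurent polynomials
  have hPLξ : ∀ l, PL fun _ x => ξ x l := fun l => PL.laur fun x hx => hξp x hx l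
  have hPLP : ∀ o, PL fun _ x => eval (ξ x) (P' o) := fun o => PL.eval hPLξ (P' o)
  have hPLY : ∀ l, PL fun m x => Y m (ξ x) l := by
    intro l
    simp only [Y, T, map_sum, map_mul, eval_C]
    exact PL.sum _ fun k _ => (PL.seq fun m => U m l.1 k).mul (hPLP _)
  obtain ⟨c0, W, hW⟩ := PL.common fun j : Fin (N + 1) => PL.eval hPLY (Φ j)
  have hWR : ∀ (R : MvPolynomial (Fin (N + 1)) ℂ) (dR : ℕ), R.IsHomogeneous dR →
      ∀ (m : ℕ) (x : ℂ), x ≠ 0 → evp m x (aeval W R) =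
        x ^ (c0 * dR) * eval (Y m (ξ x)) (bind₁ Φ R) := by
    intro R dR hR m x hx
    rw [evp_aeval, eval_bind, pow_mul, ← Pool.Agent.TH143.GT.eval_smul_homog hR]
    congr 1
    congr 1
    funext j
    rw [hW m x hx j]
  have hξv : ∀ m : ℕ, Y m (ξ 1) = mv (U m) := fun m => by rw [hξ1, ← hv0, hYv]
  have hW1 : ∀ j (m : ℕ), evp m 1 (W j) = pt U Φ m j := by
    intro j m
    rw [← hW m 1 one_ne_zero j, one_pow, one_mul, hξv]
    rfl
  refine ⟨W, ?_, hW1, ?_, ?_⟩
  · rintro R ⟨dR, hR⟩ hRz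
    filter_upwards [hflow (bind₁ Φ R) (by
      filter_upwards [hRz] with m hm
      rw [hev]
      exact hm)] with m hm x hx
    rw [hWR R dR hR m x hx, hYT, hξR _ _ x hx, mul_zero]
    intro t
    rw [← hYT, hYy]
    exact hm t
  · obtain ⟨c1, hh, hhW⟩ := hPLP none
    refine ⟨hh, c0 * e + c1, ?_⟩
    filter_upwards [hγ] with m hm x hx
    rw [map_mul, hWR Q e hQe m x hx, ← hhW m x hx, pow_add]
    have h1 : eval (ξ x) (bind₁ (T m) (bind₁ Φ Q) * P' none - C (eval (pt U Φ m) Q)) = 0 := by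
      apply hξR _ _ x hx
      intro t
      rw [map_sub, map_mul, eval_C, ← hYT, hYy, hm t, ← hP', hev]
      simp only [G, Option.elim_none]
      rw [mul_assoc, ← Complex.exp_add]
      simp
    rw [map_sub, map_mul, eval_C, ← hYT, sub_eq_zero] at h1
    rw [← h1]
    ring
  · -- derivatives at the point `1`
    have hd1 : ∀ (m : ℕ) (R : MvPolynomial (Fin (N + 1)) ℂ), R.IsHomogeneous d →
        evp m 1 (Polynomial.derivative (aeval W R)) =
          (c0 * d : ℕ) * eval (mv (U m)) (bind₁ Φ R) +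
          ∑ l, eval v0 (pderiv l (bind₁ (T m) (bind₁ Φ R))) * ξ' l := by
      intro m R hR
      have h1 := evp_deriv m 1 (aeval W R)
      have h2 : (fun x => evp m x (aeval W R)) =ᶠ[nhds 1]
          fun x => x ^ (c0 * d) * eval (ξ x) (bind₁ (T m) (bind₁ Φ R)) := by
        filter_upwards [isOpen_ne.mem_nhds (one_ne_zero (α := ℂ))] with x hx
        rw [hWR R d hR m x hx, hYT]
      have h3 := Pool.Agent.H159R3.Exp.hasDerivAt_eval ξ ξ' 1 hξd (bind₁ (T m) (bind₁ Φ R))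
      have h4 := (hasDerivAt_pow (c0 * d) (1 : ℂ)).mul h3
      have h5 := (h1.congr_of_eventuallyEq h2.symm).unique h4
      rw [h5, hξ1, ← hYT, ← hv0, hYv]
      simp
    have hd2 : ∀ (m : ℕ) (R : MvPolynomial (Fin (N + 1)) ℂ), R.IsHomogeneous d →
        evp m 1 (aeval W R) = eval (mv (U m)) (bind₁ Φ R) := by
      intro m R hR
      rw [hWR R d hR m 1 one_ne_zero, hξv, one_pow, one_mul]
    have h6 : (fun m => evp m 1 (Polynomial.derivative (aeval W g1) * aeval W g0 -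
        aeval W g1 * Polynomial.derivative (aeval W g0))) = fun s => ∑ l,
        (eval v0 (pderiv l (bind₁ (T s) G1)) * eval (mv (U s)) G0 -
          eval (mv (U s)) G1 * eval v0 (pderiv l (bind₁ (T s) G0))) * ξ' l := by
      funext m
      rw [map_sub, map_mul, map_mul, hd1 m g1 hg1, hd1 m g0 hg0, hd2 m g0 hg0, hd2 m g1 hg1]
      simp only [sub_mul, Finset.sum_sub_distrib, add_mul, mul_add, Finset.sum_mul,
        Finset.mul_sum, ← hG0, ← hG1]
      have e1 : ∀ l, eval v0 (pderiv l (bind₁ (T m) G1)) * eval (mv (U m)) G0 * ξ' l =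
          eval v0 (pderiv l (bind₁ (T m) G1)) * ξ' l * eval (mv (U m)) G0 := fun l => by ring
      have e2 : ∀ l, eval (mv (U m)) G1 * eval v0 (pderiv l (bind₁ (T m) G0)) * ξ' l =
          eval (mv (U m)) G1 * (eval v0 (pderiv l (bind₁ (T m) G0)) * ξ' l) := fun l => by ring
      simp only [e1, e2]
      ring
    rw [h6]
    exact hξn

end Pool.Agent.TH143.DE
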