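import Pool.Agent.TH143.DE.Flow

/-!
Linear difference equations: infinitesimal symmetries which move a given function.
-/

set_option autoImplicit false

namespace Pool.Agent.TH143.DE

open MvPolynomial Filter

/-- Linear algebra with varying functionals. -/
theorem exists_in_ker {V : Type} [AddCommGroup V] [Module ℂ V] [FiniteDimensional ℂ V]
    {I : Ideal (ℕ → ℂ)} (hI : EZ ≤ I) (L : Submodule ℂ V) {k : ℕ}
    (T : ℕ → V →ₗ[ℂ] (Fin k → ℂ)) (hT : ∀ᶠ m in atTop, LinearMap.ker (T m) = L)
    (Ψ : ℕ → V →ₗ[ℂ] ℂ) (β : ℕ → V) (h1 : ∀ i, (fun m => T m (β m) i) ∈ I)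
    (h2 : (fun m => Ψ m (β m)) ∉ I) : ∃ b ∈ L, (fun m => Ψ m b) ∉ I := by
  classical
  by_contra hcon
  push Not at hcon
  apply h2
  -- partial inverses
  have hN : ∀ m, ∃ N : (Fin k → ℂ) →ₗ[ℂ] V, ∀ v, T m (N (T m v)) = T m v := by
    intro m
    obtain ⟨g, hg⟩ := (T m).rangeRestrict.exists_rightInverse_of_surjective
      (LinearMap.range_rangeRestrict _)
    obtain ⟨N, hN⟩ := LinearMap.exists_extend g
    refine ⟨N, fun v => ?_⟩
    have h3 : N (T m v) = g ((T m).rangeRestrict v) := by
      rw [← hN]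
      rfl
    have h4 : (T m).rangeRestrict (g ((T m).rangeRestrict v)) = (T m).rangeRestrict v := by
      have := LinearMap.congr_fun hg ((T m).rangeRestrict v)
      rwa [LinearMap.comp_apply, LinearMap.id_apply] at this
    rw [h3]
    exact congrArg Subtype.val h4
  choose N hN using hN
  let b := Module.finBasis ℂ L
  have hdec : ∀ m, ∃ c : Fin (Module.finrank ℂ L) → ℂ, LinearMap.ker (T m) = L →
      β m = (∑ i, T m (β m) i • N m (Pi.single i 1)) + ∑ j, c j • (b j : V) := by
    intro m
    by_cases hm : LinearMap.ker (T m) = L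
    · have h3 : β m - N m (T m (β m)) ∈ L := by
        rw [← hm, LinearMap.mem_ker, map_sub, hN, sub_self]
      refine ⟨fun j => b.repr ⟨_, h3⟩ j, fun _ => ?_⟩
      have h4 := congrArg Subtype.val (b.sum_repr ⟨_, h3⟩)
      have h5 : N m (T m (β m)) = ∑ i, T m (β m) i • N m (Pi.single i 1) := by
        conv_lhs => rw [pi_eq_sum_univ' (T m (β m))]
        rw [map_sum]
        refine Finset.sum_congr rfl fun i _ => ?_
        rw [map_smul]
      rw [← h5]
      have h6 : ∑ j, (b.repr ⟨_, h3⟩ j) • (b j : V) = β m - N m (T m (β m)) := by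
        simp only [Submodule.coe_sum, Submodule.coe_smul] at h4
        exact h4
      rw [h6]
      abel
    · exact ⟨0, fun h => absurd h hm⟩
  choose c hc using hdec
  have h3 : (fun m => Ψ m (β m)) - ((∑ i, (fun m => T m (β m) i) * (fun m => Ψ m
      (N m (Pi.single i 1)))) + ∑ j, (fun m => c m j) * (fun m => Ψ m (b j : V))) ∈ I := by
    apply hI
    rw [mem_EZ]
    filter_upwards [hT] with m hm
    have h4 := congrArg (Ψ m) (hc m hm)
    rw [map_add, map_sum, map_sum] at h4
    simp only [map_smul, smul_eq_mul] at h4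
    rw [Pi.sub_apply, Pi.add_apply, Finset.sum_apply, Finset.sum_apply, sub_eq_zero]
    exact h4
  have h4 : ((∑ i, (fun m => T m (β m) i) * (fun m => Ψ m
      (N m (Pi.single i 1)))) + ∑ j, (fun m => c m j) * (fun m => Ψ m (b j : V))) ∈ I := by
    refine I.add_mem (I.sum_mem fun i _ => I.mul_mem_right _ (h1 i)) (I.sum_mem fun j _ =>
      I.mul_mem_left _ (hcon _ (b j).2))
  have h5 := I.add_mem h3 h4
  rwa [sub_add_cancel] at h5

variable {n : ℕ} {B : Subalgebra ℂ (ℕ → ℂ)}

/-- class of a sequence -/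
def cl (I : Ideal (ℕ → ℂ)) : (ℕ → ℂ) →+* (ℕ → ℂ) ⧸ I := Ideal.Quotient.mk I

theorem cl_zero {I : Ideal (ℕ → ℂ)} {f : ℕ → ℂ} : cl I f = 0 ↔ f ∈ I :=
  Ideal.Quotient.eq_zero_iff_mem

/-- the functional which measures the motion of the quotient of two polynomials -/
noncomputable def Psi (U : ℕ → Matrix (Fin n) (Fin n) ℂ) (G0 G1 : MvPolynomial (Fin n × Fin n) ℂ)
    (m : ℕ) : Matrix (Fin n) (Fin n) ℂ →ₗ[ℂ] ℂ where
  toFun β := (∑ p, eval (mv (U m)) (pderiv p G1) * (U m * β) p.1 p.2) * eval (mv (U m)) G0 -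
    eval (mv (U m)) G1 * ∑ p, eval (mv (U m)) (pderiv p G0) * (U m * β) p.1 p.2
  map_add' β β' := by
    simp only [Matrix.add_apply, mul_add, Finset.sum_add_distrib]
    ring
  map_smul' c β := by
    simp only [Matrix.mul_smul, Matrix.smul_apply, smul_eq_mul, RingHom.id_apply]
    have h1 : ∀ G : MvPolynomial (Fin n × Fin n) ℂ,
        ∑ p, eval (mv (U m)) (pderiv p G) * (c * (U m * β) p.1 p.2) =
          c * ∑ p, eval (mv (U m)) (pderiv p G) * (U m * β) p.1 p.2 := by
      intro G
      rw [Finset.mul_sum]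
      exact Finset.sum_congr rfl fun p _ => by ring
    rw [h1, h1]
    ring

theorem Psi_apply (U : ℕ → Matrix (Fin n) (Fin n) ℂ) (G0 G1 : MvPolynomial (Fin n × Fin n) ℂ)
    (m : ℕ) (β : Matrix (Fin n) (Fin n) ℂ) : Psi U G0 G1 m β =
      eval (mv (U m)) (Dc β G1) * eval (mv (U m)) G0 -
        eval (mv (U m)) G1 * eval (mv (U m)) (Dc β G0) := by
  unfold Dc
  rw [eval_mkDerivation, eval_mkDerivation]
  simp only [eval_Wc]
  rfl

/-- **A symmetry which moves a given function.** -/
theorem exists_beta {I : Ideal (ℕ → ℂ)} (hI : EZ ≤ I) {K : Type} [Field K]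
    [Algebra ((ℕ → ℂ) ⧸ I) K] [IsDomain ((ℕ → ℂ) ⧸ I)] [IsFractionRing ((ℕ → ℂ) ⧸ I) K]
    (D : K → K) (hadd : ∀ x y, D (x + y) = D x + D y)
    (hmul : ∀ x y, D (x * y) = x * D y + y * D x)
    (hDB : ∀ b ∈ B, D (algebraMap ((ℕ → ℂ) ⧸ I) K (cl I b)) = 0)
    (U : ℕ → Matrix (Fin n) (Fin n) ℂ) (hdet : ∀ᶠ m in atTop, (U m).det ≠ 0)
    (L : Submodule ℂ (Matrix (Fin n) (Fin n) ℂ)) {k : ℕ}
    (P : Fin k → MvPolynomial (Fin n × Fin n) B) (hP : ∀ i, P i ∈ JU B U)
    (hL : ∀ᶠ m in atTop, LinearMap.ker (Tm U P m) = L)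
    (G0 G1 : MvPolynomial (Fin n × Fin n) ℂ)
    (hG : D (algebraMap ((ℕ → ℂ) ⧸ I) K (cl I fun m => eval (mv (U m)) G1)) *
        algebraMap ((ℕ → ℂ) ⧸ I) K (cl I fun m => eval (mv (U m)) G0) -
      algebraMap ((ℕ → ℂ) ⧸ I) K (cl I fun m => eval (mv (U m)) G1) *
        D (algebraMap ((ℕ → ℂ) ⧸ I) K (cl I fun m => eval (mv (U m)) G0)) ≠ 0) :
    ∃ β ∈ L, (fun m => eval (mv (U m)) (Dc β G1) * eval (mv (U m)) G0 -
        eval (mv (U m)) G1 * eval (mv (U m)) (Dc β G0)) ∉ I := by
  classical
  set a := algebraMap ((ℕ → ℂ) ⧸ I) K with ha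
  have hinj : Function.Injective a := IsFractionRing.injective _ K
  obtain ⟨s, hs⟩ := IsLocalization.exist_integer_multiples_of_finset
    (nonZeroDivisors ((ℕ → ℂ) ⧸ I)) (Finset.univ.image fun p : Fin n × Fin n =>
      D (a (cl I fun m => U m p.1 p.2)))
  have hs' : ∀ p : Fin n × Fin n, ∃ h : ℕ → ℂ, a (cl I h) =
      a s * D (a (cl I fun m => U m p.1 p.2)) := by
    intro p
    obtain ⟨h, hh⟩ := hs _ (Finset.mem_image_of_mem _ (Finset.mem_univ p))
    obtain ⟨h', rfl⟩ := Ideal.Quotient.mk_surjective h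
    refine ⟨h', ?_⟩
    rw [← ha] at hh
    change a (Ideal.Quotient.mk I h') = _
    rw [hh, Algebra.smul_def]
  choose h hh using hs'
  have key : ∀ P : MvPolynomial (Fin n × Fin n) B,
      a (cl I fun m => ∑ p, eval (mv (U m)) (pderiv p (at' m P)) * h p m) =
        a s * D (a (cl I fun m => eval (mv (U m)) (at' m P))) := by
    intro P
    induction P using MvPolynomial.induction_on with
    | C c =>
      have h1 : (fun m => eval (mv (U m)) (at' m (C c : MvPolynomial (Fin n × Fin n) B))) =
          (c : ℕ → ℂ) := by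
        funext m
        rw [at'_C, eval_C]
      have h2 : (fun m => ∑ p, eval (mv (U m)) (pderiv p (at' m (C c :
          MvPolynomial (Fin n × Fin n) B))) * h p m) = 0 := by
        funext m
        refine Finset.sum_eq_zero fun p _ => ?_
        rw [at'_C, pderiv_C, map_zero, zero_mul]
      rw [h1, h2, hDB _ c.2, mul_zero, map_zero, map_zero]
    | add p q hp hq =>
      have h1 : (fun m => eval (mv (U m)) (at' m (p + q))) =
          (fun m => eval (mv (U m)) (at' m p)) + fun m => eval (mv (U m)) (at' m q) := by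
        funext m
        rw [map_add, map_add]
        rfl
      have h2 : (fun m => ∑ i, eval (mv (U m)) (pderiv i (at' m (p + q))) * h i m) =
          (fun m => ∑ i, eval (mv (U m)) (pderiv i (at' m p)) * h i m) +
            fun m => ∑ i, eval (mv (U m)) (pderiv i (at' m q)) * h i m := by
        funext m
        rw [Pi.add_apply, ← Finset.sum_add_distrib]
        refine Finset.sum_congr rfl fun i _ => ?_
        rw [map_add, map_add, map_add, add_mul]
      rw [h1, h2, map_add, map_add, hp, hq, map_add, map_add, hadd, mul_add]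
    | mul_X p j hp =>
      have h1 : (fun m => eval (mv (U m)) (at' m (p * X j))) =
          (fun m => eval (mv (U m)) (at' m p)) * fun m => U m j.1 j.2 := by
        funext m
        rw [map_mul, map_mul, at'_X, eval_X]
        rfl
      have h2 : (fun m => ∑ i, eval (mv (U m)) (pderiv i (at' m (p * X j))) * h i m) =
          (fun m => ∑ i, eval (mv (U m)) (pderiv i (at' m p)) * h i m) * (fun m => U m j.1 j.2) +
            (fun m => eval (mv (U m)) (at' m p)) * h j := by
        funext m
        rw [Pi.add_apply, Pi.mul_apply, Pi.mul_apply, Finset.sum_mul]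
        have h3 : ∀ i : Fin n × Fin n, eval (mv (U m)) (pderiv i (at' m (p * X j))) * h i m =
            eval (mv (U m)) (pderiv i (at' m p)) * h i m * U m j.1 j.2 +
              (if i = j then eval (mv (U m)) (at' m p) * h i m else 0) := by
          intro i
          rw [map_mul, at'_X, Derivation.leibniz, pderiv_X, smul_eq_mul, smul_eq_mul, map_add,
            map_mul, map_mul, eval_X]
          by_cases hij : i = j
          · subst hij
            rw [Pi.single_eq_same, map_one, if_pos rfl]
            change _ = _ * h i m * mv (U m) i + _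
            ring
          · rw [Pi.single_eq_of_ne (Ne.symm hij), map_zero, if_neg hij]
            change _ = _ * h i m * mv (U m) j + _
            ring
        rw [Finset.sum_congr rfl fun i _ => h3 i, Finset.sum_add_distrib, Finset.sum_ite_eq',
          if_pos (Finset.mem_univ j)]
      rw [h1, h2, map_add, map_mul, map_mul, map_add, map_mul, map_mul, hp, hh, map_mul, map_mul,
        hmul]
      ring
  -- the varying matrix
  set β : ℕ → Matrix (Fin n) (Fin n) ℂ := fun m => (U m)⁻¹ * Matrix.of fun i j => h (i, j) m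
    with hβ
  have hUβ : ∀ᶠ m in atTop, ∀ p : Fin n × Fin n, (U m * β m) p.1 p.2 = h p m := by
    filter_upwards [hdet] with m hm p
    rw [hβ]
    change (U m * ((U m)⁻¹ * Matrix.of fun i j => h (i, j) m)) p.1 p.2 = _
    rw [← Matrix.mul_assoc, Matrix.mul_nonsing_inv _ hm.isUnit, Matrix.one_mul]
    rfl
  have hD0 : D 0 = 0 := by
    have := hadd 0 0
    rw [add_zero] at this
    linear_combination - this
  obtain ⟨b, hb, hb'⟩ := exists_in_ker hI L (Tm U P) hL (Psi U G0 G1) β (fun i => by
      have h1 := key (P i)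
      have h2 : cl I (fun m => eval (mv (U m)) (at' m (P i))) = 0 := cl_zero.2 (hI (hP i))
      rw [h2, map_zero, hD0, mul_zero, map_eq_zero_iff a hinj, cl_zero] at h1
      have h3 : (fun m => Tm U P m (β m) i) -
          (fun m => ∑ p, eval (mv (U m)) (pderiv p (at' m (P i))) * h p m) ∈ I := by
        apply hI
        rw [mem_EZ]
        filter_upwards [hUβ] with m hm
        rw [Pi.sub_apply, sub_eq_zero]
        change ∑ p, _ = _
        exact Finset.sum_congr rfl fun p _ => by rw [hm p]
      have h4 := I.add_mem h3 h1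
      rwa [sub_add_cancel] at h4) (by
      intro hcon
      apply hG
      have h1 := key (cB B G1)
      have h0 := key (cB B G0)
      simp only [at'_cB] at h0 h1
      have h2 : (fun m => Psi U G0 G1 m (β m)) -
          ((fun m => ∑ p, eval (mv (U m)) (pderiv p G1) * h p m) * (fun m => eval (mv (U m)) G0) -
            (fun m => eval (mv (U m)) G1) *
              fun m => ∑ p, eval (mv (U m)) (pderiv p G0) * h p m) ∈ I := by
        apply hI
        rw [mem_EZ]
        filter_upwards [hUβ] with m hm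
        rw [Pi.sub_apply, sub_eq_zero, Pi.sub_apply, Pi.mul_apply, Pi.mul_apply]
        change (∑ p, eval (mv (U m)) (pderiv p G1) * (U m * β m) p.1 p.2) *
          eval (mv (U m)) G0 - eval (mv (U m)) G1 *
            (∑ p, eval (mv (U m)) (pderiv p G0) * (U m * β m) p.1 p.2) = _
        congr 2
        · exact Finset.sum_congr rfl fun p _ => by rw [hm p]
        · exact Finset.sum_congr rfl fun p _ => by rw [hm p]
      have h3 := I.sub_mem hcon h2
      rw [sub_sub_cancel] at h3
      have h4 := cl_zero.2 h3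
      have h5 := congrArg a h4
      rw [map_zero, map_sub, map_mul, map_mul, map_sub, map_mul, map_mul, h1, h0] at h5
      have hs0 : a s ≠ 0 := by
        rw [Ne, map_eq_zero_iff a hinj]
        exact nonZeroDivisors.ne_zero s.2
      have h6 : a s * (D (a (cl I fun m => eval (mv (U m)) G1)) *
          a (cl I fun m => eval (mv (U m)) G0) - a (cl I fun m => eval (mv (U m)) G1) *
            D (a (cl I fun m => eval (mv (U m)) G0))) = 0 := by
        rw [← h5]
        ring
      exact (mul_eq_zero.1 h6).resolve_left hs0)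
  refine ⟨b, hb, ?_⟩
  simpa only [Psi_apply] using hb'

end Pool.Agent.TH143.DE
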